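import Mathlib

set_option autoImplicit false

namespace Pool.Agent.Results.MP_914aa3_co.Counter

/-- short partizan games: finitely many Left options and Right options -/
inductive Game
  | mk (m n : ℕ) (L : Fin m → Game) (R : Fin n → Game)

open Game

/-- `G + ·`, given the maps `G^L + ·` and `G^R + ·` -/
def addAux {m n : ℕ} (l : Fin m → Game → Game) (r : Fin n → Game → Game) : Game → Game
  | mk a b L R => mk (m + a) (n + b) (Fin.append (fun i => l i (mk a b L R)) fun j => addAux l r (L j))
      (Fin.append (fun i => r i (mk a b L R)) fun j => addAux l r (R j))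

/-- disjunctive sum -/
def add : Game → Game → Game
  | mk _ _ L R => addAux (fun i => add (L i)) fun i => add (R i)

/-- normal play: the player to move (`true` Left, `false` Right) wins -/
def win : Game → Bool → Bool
  | mk m _ L _, true => (List.finRange m).any fun i => !win (L i) false
  | mk _ n _ R, false => (List.finRange n).any fun j => !win (R j) true

/-- equality of values -/
def Eqv (G H : Game) : Prop := ∀ X p, win (add G X) p = win (add H X) p

/-- moves from the position with occupied cells `P` by the stones in cells of parity `c`:
the stone at `s` makes `j + 1` jumps in direction `d` -/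
def moves (P : List ℤ) (c : ℤ) : List (List ℤ) :=
  (P.filter (· % 2 = c)).flatMap fun s => [1, -1].flatMap fun d : ℤ =>
    ((List.range P.length).filter fun j : ℕ =>
      ∀ i : ℕ, i ≤ j → s + d * (2 * i + 1) ∈ P ∧ s + d * (2 * i + 2) ∉ P).map fun j : ℕ =>
        (s + d * (2 * j + 2)) :: P.filter fun x => x ≠ s ∧ ∀ i : ℕ, i ≤ j → x ≠ s + d * (2 * i + 1)

/-- game tree to depth `f`; Black (even cells) is Left, White (odd cells) is Right -/
def tree : ℕ → List ℤ → Game
  | 0, _ => mk 0 0 nofun nofun
  | f + 1, P => mk _ _ (fun i => tree f ((moves P 0).get i)) fun j => tree f ((moves P 1).get j)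

/-- the game of a position (each move removes a stone, so depth `|P|` is the whole tree) -/
def val (P : List ℤ) : Game := tree P.length P

/-- the `n` cells starting at `a` -/
def run (a n : ℕ) : List ℤ := (List.range' a n).map (↑)

def Decomposes (k m n : ℕ) : Prop :=
  Eqv (val (run 1 k ++ run (k + 2) m ++ run (k + m + 4) n))
    (add (val (run 1 k ++ run (k + 2) m)) (val (run (k + m + 4) n)))

def zero : Game := mk 0 0 nofun nofun

theorem result : ¬ Decomposes 1 2 2 ∧ ¬ Decomposes 3 4 6 :=
  ⟨fun h => absurd (h (mk 1 1 (fun _ => mk 1 1 (fun _ => zero) fun _ => zero) fun _ => zero) true)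
      (by decide +kernel),
    fun h => absurd (h (mk 1 1 (fun _ => mk 1 1 (fun _ => mk 0 1 nofun fun _ => zero) fun _ => zero)
      fun _ => zero) true) (by decide +kernel)⟩

end Pool.Agent.Results.MP_914aa3_co.Counter
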